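import Pool.Agent.Helper191_Fac.Tight

set_option autoImplicit false

namespace Pool.Agent.Results.MP_14840f_nt.AlmostAllTwo

/-- For the prime 2 and every function `ψ` tending to infinity, the set of those `a ≥ 1` for which
some finite set `A` of integers with least element `a` satisfies
`2 ^ (v_2(a!) + ψ a) ∣ ∑ x ∈ A, x!` has natural density zero. -/
theorem result (ψ : ℕ → ℕ) (hψ : Filter.Tendsto ψ Filter.atTop Filter.atTop) :
    Filter.Tendsto (fun N : ℕ =>
      ((({a : ℕ | 1 ≤ a ∧ a ≤ N ∧ ∃ A : Finset ℕ, a ∈ A ∧ (∀ x ∈ A, a ≤ x) ∧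
        2 ^ (padicValNat 2 a.factorial + ψ a) ∣ ∑ x ∈ A, x.factorial}).ncard : ℕ) : ℝ) / N)
      Filter.atTop (nhds 0) :=
  Pool.Agent.Helper191_Fac.tight_two ψ hψ

end Pool.Agent.Results.MP_14840f_nt.AlmostAllTwo
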